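import Mathlib

/-!
# Lifting points of bounded degree: commutative algebra
-/

set_option autoImplicit false

open Module Polynomial

namespace Pool.Agent.Helper53.UBT

/-- A finitely generated domain over an infinite field has enough points of bounded degree. -/
theorem exists_pt (K E : Type) [Field K] [Infinite K] [CommRing E] [IsDomain E] [Algebra K E]
    [Algebra.FiniteType K E] : ∃ c : ℕ, ∀ b : E, b ≠ 0 →
      ∃ (K' : Type) (_ : Field K') (_ : Algebra K K') (χ : E →ₐ[K] K'),
        FiniteDimensional K K' ∧ finrank K K' ≤ c ∧ χ b ≠ 0 := by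
  obtain ⟨s, g, hg, hfin⟩ := exists_finite_inj_algHom_of_fg K E
  let _ : Algebra (MvPolynomial (Fin s) K) E := g.toRingHom.toAlgebra
  have : IsScalarTower K (MvPolynomial (Fin s) K) E := IsScalarTower.of_algebraMap_eq fun x =>
    (g.commutes x).symm
  have : Module.Finite (MvPolynomial (Fin s) K) E := hfin
  obtain ⟨n, f, hf⟩ := Module.Finite.exists_fin (R := MvPolynomial (Fin s) K) (M := E)
  refine ⟨n, fun b hb => ?_⟩
  have h1 : (Ideal.span {b}).comap (algebraMap (MvPolynomial (Fin s) K) E) ≠ ⊥ :=
    Ideal.comap_ne_bot_of_integral_mem hb (Ideal.mem_span_singleton_self b)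
      (Algebra.IsIntegral.isIntegral b)
  obtain ⟨h, hh, hh0⟩ := Submodule.exists_mem_ne_zero_of_ne_bot h1
  obtain ⟨x, hx⟩ : ∃ x : Fin s → K, MvPolynomial.eval x h ≠ 0 := by
    by_contra hcon
    push Not at hcon
    apply hh0
    apply MvPolynomial.funext
    intro x
    rw [hcon x, map_zero]
  have hm : (RingHom.ker (MvPolynomial.eval x : MvPolynomial (Fin s) K →+* K)).IsMaximal :=
    RingHom.ker_isMaximal_of_surjective _ fun y => ⟨MvPolynomial.C y, MvPolynomial.eval_C _⟩
  have hker : RingHom.ker (algebraMap (MvPolynomial (Fin s) K) E) ≤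
      RingHom.ker (MvPolynomial.eval x : MvPolynomial (Fin s) K →+* K) := by
    have : RingHom.ker (algebraMap (MvPolynomial (Fin s) K) E) = ⊥ :=
      (RingHom.injective_iff_ker_eq_bot _).mp hg
    rw [this]
    exact bot_le
  obtain ⟨Q, hQ, hQc⟩ := Ideal.exists_ideal_over_maximal_of_isIntegral _ hker
  let _ := Ideal.Quotient.field Q
  have hsub : ∀ p : MvPolynomial (Fin s) K, Ideal.Quotient.mk Q (algebraMap _ E p) =
      algebraMap K (E ⧸ Q) (MvPolynomial.eval x p) := by
    intro p
    have h2 : p - MvPolynomial.C (MvPolynomial.eval x p) ∈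
        RingHom.ker (MvPolynomial.eval x : MvPolynomial (Fin s) K →+* K) := by
      rw [RingHom.mem_ker, map_sub, MvPolynomial.eval_C, sub_self]
    rw [← hQc, Ideal.mem_comap, map_sub] at h2
    have h3 := (Ideal.Quotient.mk_eq_mk_iff_sub_mem _ _).2 h2
    rw [h3]
    have h4 : algebraMap (MvPolynomial (Fin s) K) E (MvPolynomial.C (MvPolynomial.eval x p)) =
        algebraMap K E (MvPolynomial.eval x p) := by
      rw [IsScalarTower.algebraMap_apply K (MvPolynomial (Fin s) K) E]
      rfl
    rw [h4]
    rfl
  have hspan : Submodule.span K (Set.range fun i => Ideal.Quotient.mk Q (f i)) = ⊤ := by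
    rw [eq_top_iff]
    rintro z -
    obtain ⟨y, rfl⟩ := Ideal.Quotient.mk_surjective z
    have h2 : y ∈ Submodule.span (MvPolynomial (Fin s) K) (Set.range f) := by
      rw [hf]
      trivial
    rw [Submodule.mem_span_range_iff_exists_fun] at h2
    obtain ⟨w, hw⟩ := h2
    rw [← hw, map_sum]
    refine Submodule.sum_mem _ fun i _ => ?_
    rw [Algebra.smul_def, map_mul, hsub, ← Algebra.smul_def]
    exact Submodule.smul_mem _ _ (Submodule.subset_span ⟨i, rfl⟩)
  refine ⟨E ⧸ Q, inferInstance, inferInstance, Ideal.Quotient.mkₐ K Q, ?_, ?_, ?_⟩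
  · exact ⟨⟨(Set.finite_range fun i => Ideal.Quotient.mk Q (f i)).toFinset, by
      rw [Set.Finite.coe_toFinset]
      exact hspan⟩⟩
  · have := finrank_le_of_span_eq_top hspan
    simpa using this
  · intro h2
    rw [Ideal.Quotient.mkₐ_eq_mk, Ideal.Quotient.eq_zero_iff_mem] at h2
    have h3 : algebraMap (MvPolynomial (Fin s) K) E h ∈ Q :=
      (Ideal.span_singleton_le_iff_mem (I := Q)).2 h2 hh
    have h4 : h ∈ Q.comap (algebraMap (MvPolynomial (Fin s) K) E) := h3
    rw [hQc, RingHom.mem_ker] at h4
    exact hx h4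

/-- Spreading out a point with values in a finite extension of the field of fractions, without increasing the
degree. -/
theorem spread {A K' B : Type} [CommRing A] [IsDomain A] [Field K'] [CharZero K'] [Algebra A K']
    [Algebra (FractionRing A) K'] [IsScalarTower A (FractionRing A) K']
    [FiniteDimensional (FractionRing A) K'] [CommRing B] [Algebra A B] [Algebra.FiniteType A B]
    (χ : B →ₐ[A] K') (b : B) (hb : χ b ≠ 0) :
    ∃ a : A, a ≠ 0 ∧ ∀ (L : Type) [Field L] (φ : A →+* L), φ a ≠ 0 →
      ∃ (L' : Type) (_ : Field L') (_ : Algebra L L') (ψ : B →+* L'), FiniteDimensional L L' ∧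
        finrank L L' ≤ finrank (FractionRing A) K' ∧
        ψ.comp (algebraMap A B) = (algebraMap L L').comp φ ∧ ψ b ≠ 0 := by
  classical
  let K := FractionRing A
  have hcK : CharZero K := by
    refine ⟨fun m n h => ?_⟩
    have h1 : algebraMap K K' (m : K) = algebraMap K K' (n : K) := by rw [h]
    rw [map_natCast, map_natCast] at h1
    exact_mod_cast h1
  obtain ⟨θ, hθ⟩ := Field.exists_primitive_element K K'
  have hint : IsIntegral K θ := Algebra.IsIntegral.isIntegral θ
  set p : K[X] := minpoly K θ with hpdef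
  have hp : p.Monic := minpoly.monic hint
  have hdeg : p.natDegree = finrank K K' := by
    rw [← IntermediateField.adjoin.finrank hint, hθ, IntermediateField.finrank_top']
  have hq : ∀ z : K', ∃ q : K[X], aeval θ q = z := by
    intro z
    have h1 : z ∈ (IntermediateField.adjoin K {θ}).toSubalgebra := by
      rw [hθ]
      trivial
    rw [IntermediateField.adjoin_simple_toSubalgebra_of_isAlgebraic hint.isAlgebraic,
      Algebra.adjoin_singleton_eq_range_aeval] at h1
    exact h1
  choose q hq using hq
  obtain ⟨t, ht⟩ := (Algebra.FiniteType.out : (⊤ : Subalgebra A B).FG)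
  let S : Finset K := p.coeffs ∪ ((t.biUnion fun y => (q (χ y)).coeffs) ∪ (q (χ b)⁻¹).coeffs)
  obtain ⟨a, ha⟩ := IsLocalization.exist_integer_multiples_of_finset (nonZeroDivisors A) S
  have ha0 : (a : A) ≠ 0 := nonZeroDivisors.coe_ne_zero a
  have haK : algebraMap A K (a : A) ≠ 0 := by
    intro h
    exact ha0 ((IsFractionRing.injective A K) (by rw [h, map_zero]))
  let R := Localization.Away (a : A)
  let ι : R →+* K := IsLocalization.Away.lift (a : A) (g := algebraMap A K) haK.isUnit
  have hιA : ∀ x : A, ι (algebraMap A R x) = algebraMap A K x := fun x =>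
    IsLocalization.Away.lift_eq _ _ _
  have hRdom : IsDomain R := IsLocalization.isDomain_localization
    (powers_le_nonZeroDivisors_of_noZeroDivisors ha0)
  have hι : Function.Injective ι := by
    rw [injective_iff_map_eq_zero]
    intro x hx
    obtain ⟨⟨y, m⟩, hy⟩ := IsLocalization.surj (Submonoid.powers (a : A)) x
    have h1 : ι (x * algebraMap A R m) = ι (algebraMap A R y) := by rw [hy]
    rw [map_mul, hx, zero_mul, hιA] at h1
    have h2 : y = 0 := IsFractionRing.injective A K (by rw [← h1, map_zero])
    rw [h2, map_zero] at hy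
    have h3 : IsUnit (algebraMap A R (m : A)) := IsLocalization.map_units R m
    exact (h3.mul_left_eq_zero).1 hy
  have hrange : ∀ x ∈ S, x ∈ Set.range ι := by
    intro x hx
    obtain ⟨y, hy⟩ := ha x hx
    have hu : IsUnit (algebraMap A R (a : A)) := IsLocalization.Away.algebraMap_isUnit (a : A)
    obtain ⟨v, hv⟩ := hu.exists_left_inv
    refine ⟨v * algebraMap A R y, ?_⟩
    have h1 : ι v * algebraMap A K (a : A) = 1 := by
      rw [← hιA, ← map_mul, hv, map_one]
    rw [map_mul, hιA, hy]
    show ι v * ((a : A) • x) = x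
    rw [Algebra.smul_def, ← mul_assoc, h1, one_mul]
  have hlift : ∀ f : K[X], (∀ x ∈ f.coeffs, x ∈ S) → f ∈ lifts ι := by
    intro f hf
    rw [lifts_iff_coeff_lifts]
    intro n
    by_cases h0 : f.coeff n = 0
    · exact ⟨0, by rw [map_zero, h0]⟩
    · exact hrange _ (hf _ (coeff_mem_coeffs h0))
  obtain ⟨pR, hpR, hdegR, hmonR⟩ := lifts_and_natDegree_eq_and_monic
    (hlift p fun x hx => Finset.mem_union_left _ hx) hp
  have hroot : eval₂ ((algebraMap K K').comp ι) θ pR = 0 := by
    rw [← eval₂_map, hpR]
    exact minpoly.aeval K θ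
  let κ : AdjoinRoot pR →+* K' := AdjoinRoot.lift ((algebraMap K K').comp ι) θ hroot
  have hκmk : ∀ f : R[X], κ (AdjoinRoot.mk pR f) = aeval θ (f.map ι) := by
    intro f
    show AdjoinRoot.lift _ _ _ _ = _
    rw [AdjoinRoot.lift_mk, ← eval₂_map]
    rfl
  have hκ : Function.Injective κ := by
    rw [injective_iff_map_eq_zero]
    intro x hx
    obtain ⟨f, rfl⟩ := AdjoinRoot.mk_surjective x
    rw [hκmk] at hx
    have h1 : p ∣ f.map ι := minpoly.dvd K θ hx
    rw [← hpR, map_dvd_map ι hι hmonR] at h1
    exact AdjoinRoot.mk_eq_zero.2 h1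
  have hpoly : ∀ f : K[X], (∀ x ∈ f.coeffs, x ∈ S) → ∃ z, κ z = aeval θ f := by
    intro f hf
    obtain ⟨f', hf'⟩ := (mem_lifts _).1 (hlift f hf)
    exact ⟨AdjoinRoot.mk pR f', by rw [hκmk, hf']⟩
  have hκA : ∀ x : A, κ (AdjoinRoot.of pR (algebraMap A R x)) = algebraMap A K' x := by
    intro x
    show AdjoinRoot.lift _ _ _ _ = _
    rw [AdjoinRoot.lift_of, RingHom.comp_apply, hιA, ← IsScalarTower.algebraMap_apply]
  have hB : ∀ y : B, ∃ z, κ z = χ y := by
    intro y
    have hy : y ∈ Algebra.adjoin A (t : Set B) := by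
      rw [ht]
      trivial
    induction hy using Algebra.adjoin_induction with
    | mem x hx =>
      obtain ⟨z, hz⟩ := hpoly (q (χ x)) fun w hw => Finset.mem_union_right _
        (Finset.mem_union_left _ (Finset.mem_biUnion.2 ⟨x, hx, hw⟩))
      exact ⟨z, by rw [hz, hq]⟩
    | algebraMap r => exact ⟨_, by rw [hκA, AlgHom.commutes]⟩
    | add x y _ _ hx hy =>
      obtain ⟨z, hz⟩ := hx
      obtain ⟨w, hw⟩ := hy
      exact ⟨z + w, by rw [map_add, map_add, hz, hw]⟩
    | mul x y _ _ hx hy =>
      obtain ⟨z, hz⟩ := hx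
      obtain ⟨w, hw⟩ := hy
      exact ⟨z * w, by rw [map_mul, map_mul, hz, hw]⟩
  choose τ hτ using hB
  obtain ⟨i₀, hi₀⟩ := hpoly (q (χ b)⁻¹) fun w hw => Finset.mem_union_right _
    (Finset.mem_union_right _ hw)
  rw [hq] at hi₀
  let τ' : B →+* AdjoinRoot pR :=
    { toFun := τ
      map_one' := hκ (by rw [hτ, map_one, map_one])
      map_zero' := hκ (by rw [hτ, map_zero, map_zero])
      map_add' := fun x y => hκ (by rw [hτ, map_add, map_add, hτ, hτ])
      map_mul' := fun x y => hκ (by rw [hτ, map_mul, map_mul, hτ, hτ]) }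
  have hτb : τ' b * i₀ = 1 := hκ (by
    rw [map_mul, map_one, hi₀]
    show κ (τ b) * _ = 1
    rw [hτ]
    exact mul_inv_cancel₀ hb)
  refine ⟨a, ha0, fun L _ φ hφ => ?_⟩
  let φR : R →+* L := IsLocalization.Away.lift (a : A) (g := φ) (IsUnit.mk0 _ hφ)
  have hφA : ∀ x : A, φR (algebraMap A R x) = φ x := fun x => IsLocalization.Away.lift_eq _ _ _
  let pb : L[X] := pR.map φR
  have hpb : pb.Monic := hmonR.map φR
  have hpbd : pb.natDegree = finrank K K' := by
    rw [hmonR.natDegree_map, hdegR, hdeg]
  have hpos : 0 < finrank K K' := finrank_pos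
  obtain ⟨θ', hθ'⟩ := IsAlgClosed.exists_aeval_eq_zero (AlgebraicClosure L) pb (by
    intro h
    have := natDegree_eq_zero_iff_degree_le_zero.2 (le_of_eq h)
    omega)
  have hint' : IsIntegral L θ' := ⟨pb, hpb, hθ'⟩
  have hroot' : eval₂ ((algebraMap L (IntermediateField.adjoin L {θ'})).comp φR)
      (IntermediateField.AdjoinSimple.gen L θ') pR = 0 := by
    rw [← eval₂_map]
    apply (algebraMap (IntermediateField.adjoin L {θ'}) (AlgebraicClosure L)).injective
    rw [map_zero, hom_eval₂]
    exact hθ'
  let κ' : AdjoinRoot pR →+* IntermediateField.adjoin L {θ'} :=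
    AdjoinRoot.lift ((algebraMap L (IntermediateField.adjoin L {θ'})).comp φR)
      (IntermediateField.AdjoinSimple.gen L θ') hroot'
  refine ⟨IntermediateField.adjoin L {θ'}, inferInstance, inferInstance, κ'.comp τ',
    IntermediateField.adjoin.finiteDimensional hint', ?_, ?_, ?_⟩
  · rw [IntermediateField.adjoin.finrank hint']
    calc (minpoly L θ').natDegree ≤ pb.natDegree :=
          natDegree_le_of_dvd (minpoly.dvd L θ' hθ') hpb.ne_zero
      _ = finrank K K' := hpbd
  · refine RingHom.ext fun x => ?_
    have h1 : τ (algebraMap A B x) = AdjoinRoot.of pR (algebraMap A R x) :=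
      hκ (by rw [hτ, hκA, AlgHom.commutes])
    show κ' (τ (algebraMap A B x)) = algebraMap L _ (φ x)
    rw [h1]
    show AdjoinRoot.lift _ _ _ _ = _
    rw [AdjoinRoot.lift_of, RingHom.comp_apply, hφA]
  · intro h
    have h1 : κ' (τ' b * i₀) = 0 := by
      rw [map_mul]
      have h2 : κ' (τ' b) = 0 := h
      rw [h2, zero_mul]
    rw [hτb, map_one] at h1
    exact one_ne_zero h1

/-- **Points of bounded degree in an extension of finite type**: there is `c` such that for each `b ≠ 0` in `B`
there is `a ≠ 0` in `A` such that every point of `A` with values in a field `L` at which `a` does not vanish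
extends to a point of `B` with values in an extension of `L` of degree at most `c`, at which `b` does not
vanish. -/
theorem lift_points {A B : Type} [CommRing A] [IsDomain A] [CharZero A] [CommRing B] [IsDomain B]
    [Algebra A B] [Algebra.FiniteType A B] (hinj : Function.Injective (algebraMap A B)) :
    ∃ c : ℕ, ∀ b : B, b ≠ 0 → ∃ a : A, a ≠ 0 ∧ ∀ (L : Type) [Field L] (φ : A →+* L), φ a ≠ 0 →
      ∃ (L' : Type) (_ : Field L') (_ : Algebra L L') (ψ : B →+* L'), FiniteDimensional L L' ∧
        finrank L L' ≤ c ∧ ψ.comp (algebraMap A B) = (algebraMap L L').comp φ ∧ ψ b ≠ 0 := by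
  classical
  let K := FractionRing A
  let F := FractionRing B
  have hAF : Function.Injective (algebraMap A F) := by
    rw [IsScalarTower.algebraMap_eq A B F]
    exact (IsFractionRing.injective B F).comp hinj
  have : FaithfulSMul A F := (faithfulSMul_iff_algebraMap_injective A F).2 hAF
  let _ : Algebra K F := FractionRing.liftAlgebra A F
  have : IsScalarTower A K F := FractionRing.isScalarTower_liftAlgebra A F
  have hcK : CharZero K := ⟨fun m n h => by
    have h1 : algebraMap A K (m : A) = algebraMap A K (n : A) := by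
      rw [map_natCast, map_natCast]
      exact h
    exact_mod_cast IsFractionRing.injective A K h1⟩
  have hinf : Infinite K := CharZero.infinite K
  obtain ⟨t, ht⟩ := (Algebra.FiniteType.out : (⊤ : Subalgebra A B).FG)
  let E : Subalgebra K F := Algebra.adjoin K ((t.image (algebraMap B F) : Finset F) : Set F)
  have hE : Algebra.FiniteType K E := by
    rw [← Subalgebra.fg_iff_finiteType]
    exact ⟨t.image (algebraMap B F), rfl⟩
  have hmem : ∀ y : B, algebraMap B F y ∈ E := by
    intro y
    have hy : y ∈ Algebra.adjoin A (t : Set B) := by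
      rw [ht]
      trivial
    induction hy using Algebra.adjoin_induction with
    | mem x hx =>
      refine Algebra.subset_adjoin ?_
      rw [Finset.coe_image]
      exact ⟨x, hx, rfl⟩
    | algebraMap r =>
      rw [← IsScalarTower.algebraMap_apply A B F, IsScalarTower.algebraMap_apply A K F]
      exact Subalgebra.algebraMap_mem E _
    | add x y _ _ hx hy =>
      rw [map_add]
      exact E.add_mem hx hy
    | mul x y _ _ hx hy =>
      rw [map_mul]
      exact E.mul_mem hx hy
  obtain ⟨c, hc⟩ := exists_pt K E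
  refine ⟨c, fun b hb => ?_⟩
  let bE : E := ⟨algebraMap B F b, hmem b⟩
  have hbE : bE ≠ 0 := by
    intro h
    apply hb
    apply IsFractionRing.injective B F
    rw [map_zero]
    exact congrArg Subtype.val h
  obtain ⟨K', _, _, χ, hfd, hfr, hχ⟩ := hc bE hbE
  let _ : Algebra A K' := ((algebraMap K K').comp (algebraMap A K)).toAlgebra
  have : IsScalarTower A K K' := IsScalarTower.of_algebraMap_eq fun x => rfl
  have : CharZero K' := charZero_of_injective_algebraMap (algebraMap K K').injective
  let j : B →ₐ[A] K' :=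
    { toFun := fun y => χ ⟨algebraMap B F y, hmem y⟩
      map_one' := by
        have : (⟨algebraMap B F 1, hmem 1⟩ : E) = 1 := Subtype.ext (map_one _)
        rw [this, map_one]
      map_zero' := by
        have : (⟨algebraMap B F 0, hmem 0⟩ : E) = 0 := Subtype.ext (map_zero _)
        rw [this, map_zero]
      map_add' := fun x y => by
        rw [← map_add]
        congr 1
        exact Subtype.ext (map_add _ x y)
      map_mul' := fun x y => by
        rw [← map_mul]
        congr 1
        exact Subtype.ext (map_mul _ x y)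
      commutes' := fun r => by
        have h1 : (⟨algebraMap B F (algebraMap A B r), hmem _⟩ : E) =
            algebraMap K E (algebraMap A K r) := by
          apply Subtype.ext
          show algebraMap B F (algebraMap A B r) = algebraMap K F (algebraMap A K r)
          rw [← IsScalarTower.algebraMap_apply A B F, ← IsScalarTower.algebraMap_apply A K F]
        rw [h1, AlgHom.commutes]
        rfl }
  obtain ⟨a, ha, h⟩ := spread j b hχ
  refine ⟨a, ha, fun L _ φ hφ => ?_⟩
  obtain ⟨L', _, _, ψ, h1, h2, h3, h4⟩ := h L φ hφ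
  exact ⟨L', inferInstance, inferInstance, ψ, h1, h2.trans hfr, h3, h4⟩

end Pool.Agent.Helper53.UBT
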