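import Pool.Agent.Helper53.UBT.Pull
import Pool.Agent.Helper53.UBT.Ring

/-!
# Descent of the non-density of torsion along dominant morphisms
-/

set_option autoImplicit false

open CategoryTheory MonoidalCategory CartesianMonoidalCategory MonObj Limits AlgebraicGeometry

namespace Pool.Agent.Helper53.UBT

lemma dense_meets {X : Type} [TopologicalSpace X] [PreirreducibleSpace X] {U V : Set X} (hU : IsOpen U)
    (hV : IsOpen V) (hUn : U.Nonempty) (hVn : V.Nonempty) : (U ∩ V).Nonempty :=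
  nonempty_preirreducible_inter hU hV hUn hVn

lemma appLE_injective {U S : Scheme.{0}} (f : U ⟶ S) [IsIntegral U] [IsIntegral S] [IsDominant f]
    {V : S.Opens} {W : U.Opens} (e : W ≤ f ⁻¹ᵁ V) (hW : (W : Set U).Nonempty) :
    Function.Injective (f.appLE V W e).hom := by
  rw [injective_iff_map_eq_zero]
  intro a ha
  by_contra hne
  have h1 : S.basicOpen a ≠ ⊥ := fun h => hne ((basicOpen_eq_bot_iff a).1 h)
  have h2 : ((S.basicOpen a : S.Opens) : Set S).Nonempty :=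
    (TopologicalSpace.Opens.ne_bot_iff_nonempty _).1 h1
  obtain ⟨x, hx⟩ := f.denseRange.exists_mem_open (S.basicOpen a).isOpen h2
  obtain ⟨y, hy1, hy2⟩ := dense_meets W.isOpen (f ⁻¹ᵁ S.basicOpen a).isOpen hW ⟨x, hx⟩
  have h3 : y ∈ U.basicOpen (f.appLE V W e a) := by
    rw [Scheme.basicOpen_appLE]
    exact ⟨hy1, hy2⟩
  have h4 : f.appLE V W e a = 0 := ha
  rw [h4, Scheme.basicOpen_zero] at h3
  exact h3

/-- A point with coordinates in a field, in an affine open subscheme. -/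
lemma exists_hom {S : Scheme.{0}} {V : S.Opens} (hV : IsAffineOpen V) {L : Type} [Field L]
    (s : Spec (.of L) ⟶ S) {y : S} (hy : y ∈ Set.range s) (hyV : y ∈ V) :
    ∃ φ : Γ(S, V) →+* L, Spec.map (CommRingCat.ofHom φ) ≫ hV.fromSpec = s ∧
      ∀ a : Γ(S, V), y ∈ S.basicOpen a ↔ φ a ≠ 0 := by
  obtain ⟨x, rfl⟩ := hy
  have hsub : Set.range s ⊆ Set.range hV.fromSpec := by
    rw [hV.range_fromSpec]
    rintro - ⟨z, rfl⟩
    have : z = x := Subsingleton.elim (α := PrimeSpectrum L) _ _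
    rw [this]
    exact hyV
  let s' : Spec (.of L) ⟶ Spec Γ(S, V) := IsOpenImmersion.lift hV.fromSpec s hsub
  have hs' : s' ≫ hV.fromSpec = s := IsOpenImmersion.lift_fac _ _ _
  have h1 : Spec.map (Spec.preimage s') = s' := Spec.map_preimage s'
  refine ⟨(Spec.preimage s').hom, ?_, fun a => ?_⟩
  · rw [CommRingCat.ofHom_hom, h1, hs']
  · have h2 : s x ∈ S.basicOpen a ↔ s' x ∈ hV.fromSpec ⁻¹ᵁ S.basicOpen a := by
      rw [Scheme.Hom.mem_preimage, ← Scheme.Hom.comp_apply, hs']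
    rw [h2, hV.fromSpec_preimage_basicOpen]
    have h3 : s' x = Spec.map (Spec.preimage s') x := by rw [h1]
    rw [h3]
    have h4 : ∀ z : PrimeSpectrum L, z.asIdeal = ⊥ := fun z => Ideal.eq_bot_of_prime z.asIdeal
    change ¬ ((Spec.preimage s').hom a ∈ PrimeSpectrum.asIdeal (R := L) x) ↔ _
    rw [h4 x, Ideal.mem_bot]

/-- The point of a homomorphism. -/
lemma mem_basicOpen_of_hom {S : Scheme.{0}} {V : S.Opens} (hV : IsAffineOpen V) {L : Type} [Field L]
    (φ : Γ(S, V) →+* L) (b : Γ(S, V)) (hb : φ b ≠ 0) :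
    ∃ y ∈ Set.range (Spec.map (CommRingCat.ofHom φ) ≫ hV.fromSpec), y ∈ S.basicOpen b := by
  let x : Spec (.of L) := (⊥ : PrimeSpectrum L)
  refine ⟨_, ⟨x, rfl⟩, ?_⟩
  rw [Scheme.Hom.comp_apply, ← Scheme.Hom.mem_preimage, hV.fromSpec_preimage_basicOpen]
  show (PrimeSpectrum.comap φ (⊥ : PrimeSpectrum L)) ∈ PrimeSpectrum.basicOpen b
  rw [PrimeSpectrum.mem_basicOpen, PrimeSpectrum.comap_asIdeal, Ideal.mem_comap]
  exact hb

/-- **Lifting points along a dominant morphism**, with bounded degrees: there is `c` such that for each nonempty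
open subset `O` of `U` there is a nonempty open subset `O'` of `S` such that each point of `O'` lifts to a
point in `O` with coordinates in an extension of degree at most `c`. -/
theorem lift_scheme {U S : Scheme.{0}} (f : U ⟶ S) [IsIntegral U] [IsIntegral S] [IsDominant f]
    [LocallyOfFiniteType f] (h0 : ∀ V : S.Opens, (V : Set S).Nonempty → CharZero Γ(S, V)) :
    ∃ c : ℕ, ∀ O : U.Opens, (O : Set U).Nonempty → ∃ O' : S.Opens, (O' : Set S).Nonempty ∧
      ∀ (L : Type) [Field L] (s : Spec (.of L) ⟶ S) (y : S), y ∈ Set.range s → y ∈ O' →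
        ∃ (L' : Type) (_ : Field L') (_ : Algebra L L') (u : Spec (.of L') ⟶ U) (x : U),
          FiniteDimensional L L' ∧ Module.finrank L L' ≤ c ∧ x ∈ Set.range u ∧ x ∈ O ∧
          u ≫ f = Spec.map (CommRingCat.ofHom (algebraMap L L')) ≫ s := by
  obtain ⟨y₀⟩ := (inferInstance : Nonempty S)
  obtain ⟨V, hV, hyV, -⟩ := exists_isAffineOpen_mem_and_subset (x := y₀) (U := ⊤) trivial
  obtain ⟨x₀, hx₀⟩ := f.denseRange.exists_mem_open V.isOpen ⟨y₀, hyV⟩
  obtain ⟨W, hW, hxW, e⟩ := exists_isAffineOpen_mem_and_subset (x := x₀) (U := f ⁻¹ᵁ V) hx₀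
  have hVn : Nonempty V := ⟨⟨y₀, hyV⟩⟩
  have hWn : Nonempty W := ⟨⟨x₀, hxW⟩⟩
  let _ : Algebra Γ(S, V) Γ(U, W) := (f.appLE V W e).hom.toAlgebra
  have hft : Algebra.FiniteType Γ(S, V) Γ(U, W) := f.finiteType_appLE hV hW e
  have hc0 : CharZero Γ(S, V) := h0 V ⟨y₀, hyV⟩
  have hinj : Function.Injective (algebraMap Γ(S, V) Γ(U, W)) := appLE_injective f e ⟨x₀, hxW⟩
  obtain ⟨c, hc⟩ := lift_points hinj
  refine ⟨c, fun O hO => ?_⟩
  obtain ⟨x₁, hx₁O, hx₁W⟩ := dense_meets O.isOpen W.isOpen hO ⟨x₀, hxW⟩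
  obtain ⟨b, hb1, hb2⟩ := hW.exists_basicOpen_le (V := O) ⟨x₁, hx₁O⟩ hx₁W
  have hb : b ≠ 0 := by
    rintro rfl
    rw [Scheme.basicOpen_zero] at hb2
    exact hb2
  obtain ⟨a, ha, h⟩ := hc b hb
  have hn : ((S.basicOpen a : S.Opens) : Set S).Nonempty :=
    (TopologicalSpace.Opens.ne_bot_iff_nonempty _).1 fun h => ha ((basicOpen_eq_bot_iff a).1 h)
  refine ⟨S.basicOpen a, hn, fun L _ s y hy hya => ?_⟩
  obtain ⟨φ, hφ, hφa⟩ := exists_hom hV s hy (S.basicOpen_le a hya)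
  obtain ⟨L', _, _, ψ, h1, h2, h3, h4⟩ := h L φ ((hφa a).1 hya)
  obtain ⟨x, hx, hxb⟩ := mem_basicOpen_of_hom hW ψ b h4
  refine ⟨L', inferInstance, inferInstance, Spec.map (CommRingCat.ofHom ψ) ≫ hW.fromSpec, x, h1, h2,
    hx, hb1 hxb, ?_⟩
  rw [Category.assoc, ← hV.SpecMap_appLE_fromSpec f hW e, ← Category.assoc, ← Spec.map_comp, ← hφ,
    ← Category.assoc, ← Spec.map_comp]
  congr 2
  exact CommRingCat.hom_ext h3

/-- The statement on torsion descends along dominant morphisms. -/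
theorem NonDense.descend {g : ℕ} {U S : Scheme.{0}} (f : U ⟶ S) [IsIntegral U] [IsIntegral S]
    [IsDominant f] [LocallyOfFiniteType f]
    (h0 : ∀ V : S.Opens, (V : Set S).Nonempty → CharZero Γ(S, V)) (h : NonDense g U) :
    NonDense g S := by
  intro d A _ hA σ hσ hd
  have := hA.proper
  obtain ⟨c, hc⟩ := lift_scheme f h0
  refine h (d * c) (bc f A) (bc_abelian f A hA) (pull f A σ) (infinite_pull f A σ hσ) ?_
  rw [dense_iff_inter_open]
  intro O hO hOn
  obtain ⟨O', hO'n, hO'⟩ := hc ⟨O, hO⟩ hOn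
  obtain ⟨y, hyO, L, _, _, s, hL, hys, hs⟩ := hd.inter_open_nonempty O' O'.isOpen hO'n
  obtain ⟨L', _, _, u, x, h1, h2, hx, hxO, hu⟩ := hO' L s y hys hyO
  have hcz : CharZero L' := charZero_of_injective_algebraMap (algebraMap L L').injective
  have hfd : FiniteDimensional ℚ L' := FiniteDimensional.trans ℚ L L'
  refine ⟨x, hxO, L', inferInstance, ⟨⟩, u, ?_, hx, ?_⟩
  · change Module.finrank ℚ L' ≤ d * c
    rw [← Module.finrank_mul_finrank ℚ L L']
    exact Nat.mul_le_mul hL h2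
  · exact torsion_pull f A s u _ hu σ hs

end Pool.Agent.Helper53.UBT
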