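import Pool.Agent.Helper53.UBT.Descent

/-!
# Bounded torsion in families: transfer along dominant morphisms
-/

set_option autoImplicit false

open CategoryTheory MonoidalCategory CartesianMonoidalCategory MonObj Limits AlgebraicGeometry

namespace Pool.Agent.Helper53.UBT

/-- The orders of the torsion points of the fibres of the group scheme `A` with coordinates in the fields of the
class `F` are bounded. A rational point of the fibre of `A` at `s ∈ S(L)` is a morphism from `Spec L` to `A`
over `s`. -/
def BoundedOn {S : Scheme.{0}} (A : Over S) [GrpObj A] (F : Fields) : Prop :=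
  ∃ B : ℕ, ∀ (L : Type) [Field L] [NumberField L], F L → ∀ (s : Spec (.of L) ⟶ S) (P : Over.mk s ⟶ A),
    IsOfFinOrder P → orderOf P ≤ B

/-- The statement on the scheme `S`: for every abelian scheme over `S` of relative dimension `g`, the orders of
the torsion points of its fibres with coordinates in the fields of the class `F` are bounded. -/
def BoundedAt (g : ℕ) (F : Fields) (S : Scheme.{0}) : Prop :=
  ∀ (A : Over S) [GrpObj A], IsAbelianScheme g A → BoundedOn A F

/-- The statement `BoundedAt` for the fields of bounded degree. -/
def Bounded (g : ℕ) (S : Scheme.{0}) : Prop :=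
  ∀ d : ℕ, BoundedAt g (deg d) S

section transfer

variable {U S : Scheme.{0}} (f : U ⟶ S) (A : Over S) [GrpObj A]
  {T T' : Scheme.{0}} (s : T ⟶ S) (u : T' ⟶ U) (t : T' ⟶ T) (hu : u ≫ f = t ≫ s)

/-- The canonical morphism from the point `u` to the base change of the point `s`. -/
noncomputable def can : Over.mk u ⟶ (Over.pullback f).obj (Over.mk s) :=
  Over.homMk (pullback.lift t u hu.symm) (pullback.lift_snd _ _ _)

/-- The points of the fibres. -/
noncomputable def theta : (Over.mk s ⟶ A) →* (Over.mk u ⟶ bc f A) where
  toFun P := can f s u t hu ≫ (Over.pullback f).map P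
  map_one' := by rw [Functor.map_one, MonObj.comp_one]
  map_mul' P Q := by rw [Functor.map_mul, comp_mul]

lemma theta_fst (P : Over.mk s ⟶ A) :
    (theta f A s u t hu P).left ≫ pullback.fst A.hom f = t ≫ P.left := by
  have h1 : (theta f A s u t hu P).left = pullback.lift t u hu.symm ≫
      ((Over.pullback f).map P).left := rfl
  have h2 : ((Over.pullback f).map P).left ≫ pullback.fst A.hom f =
      pullback.fst s f ≫ P.left := pullback.lift_fst _ _ _
  rw [h1, Category.assoc, h2, ← Category.assoc]
  congr 1
  exact pullback.lift_fst _ _ _

lemma theta_injective [Epi t] : Function.Injective (theta f A s u t hu) := by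
  intro P Q h
  apply Over.OverMorphism.ext
  have h1 : t ≫ P.left = t ≫ Q.left := by rw [← theta_fst f A s u t hu, ← theta_fst f A s u t hu, h]
  exact (cancel_epi t).1 h1

end transfer

end Pool.Agent.Helper53.UBT
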