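import Pool.Agent.Helper53.UBT.Planar

/-!
# Boundedness of torsion and non-density of torsion
-/

set_option autoImplicit false

open CategoryTheory MonoidalCategory CartesianMonoidalCategory MonObj Limits AlgebraicGeometry
  Pool.Agent.Y116.UV Pool.Agent.Z125.UN Pool.Agent.Q193.LT
  Pool.Agent.Helper3.GU Pool.Agent.Helper13.RM Pool.Agent.Helper10.PC Pool.Agent.Helper53.OS

namespace Pool.Agent.Helper53.UBT

/-- If the orders of the torsion points of the fibres are bounded, then the torsion points of a section of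
infinite order are not dense. -/
theorem BoundedAt.nonDenseAt {g : ℕ} {F : Fields} {S : Scheme.{0}} [IsReduced S] (h : BoundedAt g F S) :
    NonDenseAt g F S := by
  intro A _ hA σ hσ hd
  have := hA.proper
  obtain ⟨B, hB⟩ := h A hA
  apply hσ
  rw [isOfFinOrder_iff_pow_eq_one]
  refine ⟨B.factorial, B.factorial_pos, ?_⟩
  let τ : Sec A := σ ^ B.factorial
  let ε : equalizer τ.left (1 : Sec A).left ⟶ S := equalizer.ι τ.left (1 : Sec A).left
  have hdom : IsDominant ε := by
    refine ⟨hd.mono ?_⟩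
    rintro x ⟨L, _, _, s, hL, hx, hs⟩
    have h1 : orderOf (pt s ≫ σ) ≤ B := hB L hL s _ hs
    have h2 : (pt s ≫ σ) ^ B.factorial = 1 := by
      rw [← orderOf_dvd_iff_pow_eq_one]
      exact Nat.dvd_factorial hs.orderOf_pos h1
    rw [← MonObj.comp_pow, ← MonObj.comp_one (pt s)] at h2
    have h3 : s ≫ τ.left = s ≫ (1 : Sec A).left := congrArg (fun g => g.left) h2
    have h4 : equalizer.lift s h3 ≫ ε = s := equalizer.lift_ι s h3
    obtain ⟨z, rfl⟩ := hx
    refine ⟨equalizer.lift s h3 z, ?_⟩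
    rw [← Scheme.Hom.comp_apply, h4]
  apply Over.OverMorphism.ext
  refine ext_of_isDominant_of_isSeparated (X := S) A.hom ?_ ε (equalizer.condition _ _)
  exact (Over.w τ).trans (Over.w (1 : Sec A)).symm

/-- The tautological section of the base change of `A` to a scheme over `A`. -/
noncomputable def taut {S Y : Scheme.{0}} (A : Over S) (ε : Y ⟶ A.left) : Sec (bc (ε ≫ A.hom) A) :=
  Over.homMk (pullback.lift ε (𝟙 Y) (by simp)) (pullback.lift_snd _ _ _)

lemma theta_taut {S Y : Scheme.{0}} (A : Over S) [GrpObj A] (ε : Y ⟶ A.left) {L : Type} [Field L]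
    (s : Spec (.of L) ⟶ S) (P : Over.mk s ⟶ A) (q : Spec (.of L) ⟶ Y) (hq : q ≫ ε = P.left)
    (hu : q ≫ (ε ≫ A.hom) = 𝟙 _ ≫ s) :
    theta (ε ≫ A.hom) A s q (𝟙 _) hu P = pt q ≫ taut A ε := by
  apply Over.OverMorphism.ext
  refine pullback.hom_ext ?_ ?_
  · rw [theta_fst, Category.id_comp]
    change P.left = (q ≫ pullback.lift ε (𝟙 Y) _) ≫ pullback.fst A.hom (ε ≫ A.hom)
    rw [Category.assoc, pullback.lift_fst, hq]
  · have h1 := Over.w (theta (ε ≫ A.hom) A s q (𝟙 _) hu P)
    have h2 := Over.w (pt q ≫ taut A ε)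
    exact h1.trans h2.symm

/-- The total space of a group scheme of finite type. -/
lemma ft_total {g : ℕ} (X : Sch ℚ) (hX : FT True X) (A : Over X.left) [GrpObj A]
    (hA : IsAbelianScheme g A) : FT True (Over.mk (A.hom ≫ X.hom) : Sch ℚ) := by
  have h1 := hX.locallyOfFiniteType
  have h2 := hX.quasiCompact
  have h3 := hX.separated trivial
  have h4 := hA.proper
  refine ⟨?_, ?_, fun _ => ?_⟩
  · change LocallyOfFiniteType (A.hom ≫ X.hom)
    infer_instance
  · change QuasiCompact (A.hom ≫ X.hom)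
    infer_instance
  · change IsSeparated (A.hom ≫ X.hom)
    infer_instance

/-- A nonempty open subset of the spectrum of `A / p` contains a basic open subset. -/
lemma exists_basic {R : Type} [CommRing R] (p : Ideal R) [p.IsPrime]
    (O' : (Spec (.of (R ⧸ p))).Opens) (hO : (O' : Set (Spec (.of (R ⧸ p)))).Nonempty) :
    ∃ a : R, a ∉ p ∧ ∀ (L : Type) [Field L] (φ : (R ⧸ p) →+* L), φ (Ideal.Quotient.mk p a) ≠ 0 →
      ∀ x, (Spec.map (CommRingCat.ofHom φ)) x ∈ O' := by
  obtain ⟨z, hz⟩ := hO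
  have hbasis := PrimeSpectrum.isBasis_basic_opens (R := R ⧸ p)
  have hb : ∃ U' ∈ Set.range (PrimeSpectrum.basicOpen (R := R ⧸ p)), z ∈ U' ∧ U' ≤ O' :=
    TopologicalSpace.Opens.isBasis_iff_nbhd.1 hbasis hz
  obtain ⟨_, ⟨a', rfl⟩, hza, hsub⟩ := hb
  obtain ⟨a, rfl⟩ := Ideal.Quotient.mk_surjective a'
  refine ⟨a, ?_, fun L _ φ hφ x => ?_⟩
  · intro ha
    have h1 : (Ideal.Quotient.mk p) a = 0 := Ideal.Quotient.eq_zero_iff_mem.2 ha
    rw [h1, PrimeSpectrum.basicOpen_zero] at hza
    exact hza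
  · apply hsub
    have hx : x = (⊥ : PrimeSpectrum L) := Subsingleton.elim (α := PrimeSpectrum L) _ _
    rw [hx]
    show PrimeSpectrum.comap φ (⊥ : PrimeSpectrum L) ∈ PrimeSpectrum.basicOpen _
    rw [PrimeSpectrum.mem_basicOpen, PrimeSpectrum.comap_asIdeal, Ideal.mem_comap]
    exact hφ

/-- **Noetherian induction on the total space**: if the torsion points of sections of infinite order are not
dense, over all integral schemes, then the orders of the torsion points of the fibres are bounded. -/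
theorem boundedAt_of_nonDenseAt {g : ℕ} {F : Fields}
    (h : ∀ Y : Sch ℚ, FT True Y → IsIntegral Y.left → NonDenseAt g F Y.left)
    (X : Sch ℚ) (hX : FT True X) : BoundedAt g F X.left := by
  intro A _ hA
  let T : Sch ℚ := Over.mk (A.hom ≫ X.hom)
  have hT : FT True T := ft_total X hX A hA
  have h1 := hT.locallyOfFiniteType
  have h2 := hT.quasiCompact
  have h3 : IsLocallyNoetherian T.left := LocallyOfFiniteType.isLocallyNoetherian T.hom
  have h4 : CompactSpace T.left := QuasiCompact.compactSpace_of_compactSpace T.hom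
  have h5 : IsNoetherian T.left := {}
  suffices H : ∀ Z : TopologicalSpace.Closeds T.left, ∃ B : ℕ, ∀ (L : Type) [Field L] [NumberField L]
      (s : Spec (.of L) ⟶ X.left), F L → ∀ P : Over.mk s ⟶ A, IsOfFinOrder P →
        Set.range P.left ⊆ (Z : Set T.left) → orderOf P ≤ B by
    obtain ⟨B, hB⟩ := H ⊤
    exact ⟨B, fun L _ _ hL s P hP => hB L s hL P hP (Set.subset_univ _)⟩
  intro Z
  induction Z using WellFoundedLT.induction with
  | ind Z IH =>
  by_cases hZ : IsIrreducible (Z : Set T.left)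
  · -- the generic point
    let ξ := hZ.genericPoint
    have hξ : closure ({ξ} : Set T.left) = Z := by
      rw [hZ.genericPoint_closure_eq, Z.isClosed.closure_eq]
    obtain ⟨V, hV, hyV, -⟩ := exists_isAffineOpen_mem_and_subset (x := ξ) (U := ⊤) trivial
    let p := hV.primeIdealOf ⟨ξ, hyV⟩
    have hpa : ∀ b : Γ(T.left, V), b ∉ p.asIdeal ↔ ξ ∈ T.left.basicOpen b := by
      intro b
      exact not_mem_primeIdealOf hV ξ hyV b
    let ε : Spec (.of (Γ(T.left, V) ⧸ p.asIdeal)) ⟶ A.left :=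
      Spec.map (CommRingCat.ofHom (Ideal.Quotient.mk p.asIdeal)) ≫ hV.fromSpec
    let Y : Sch ℚ := Over.mk (ε ≫ T.hom)
    have hYi : IsIntegral Y.left := by
      change IsIntegral (Spec (.of (Γ(T.left, V) ⧸ p.asIdeal)))
      infer_instance
    have hY := h Y (ft_piece T hT hV p.asIdeal) hYi
    -- the points in the open subset of `a`
    have key : ∃ a : Γ(T.left, V), a ∉ p.asIdeal ∧ ∃ B : ℕ, ∀ (L : Type) [Field L] [NumberField L]
        (s : Spec (.of L) ⟶ X.left), F L → ∀ P : Over.mk s ⟶ A, IsOfFinOrder P →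
          ∀ (φ : Γ(T.left, V) →+* L), Spec.map (CommRingCat.ofHom φ) ≫ hV.fromSpec = P.left →
            (∀ b ∈ p.asIdeal, φ b = 0) → φ a ≠ 0 → orderOf P ≤ B := by
      -- the point of `Y`
      have hpt : ∀ (L : Type) [Field L] (s : Spec (.of L) ⟶ X.left) (P : Over.mk s ⟶ A)
          (φ : Γ(T.left, V) →+* L), Spec.map (CommRingCat.ofHom φ) ≫ hV.fromSpec = P.left →
            ∀ hφ : (∀ b ∈ p.asIdeal, φ b = 0),
              Spec.map (CommRingCat.ofHom (Ideal.Quotient.lift p.asIdeal φ hφ)) ≫ ε = P.left ∧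
              Spec.map (CommRingCat.ofHom (Ideal.Quotient.lift p.asIdeal φ hφ)) ≫ (ε ≫ A.hom) =
                𝟙 _ ≫ s := by
        intro L _ s P φ hP hφ
        have h6 : Spec.map (CommRingCat.ofHom (Ideal.Quotient.lift p.asIdeal φ hφ)) ≫ ε = P.left := by
          rw [← hP, ← Category.assoc, ← Spec.map_comp]
          rfl
        refine ⟨h6, ?_⟩
        rw [← Category.assoc, h6, Category.id_comp]
        exact Over.w P
      by_cases hfin : IsOfFinOrder (taut A ε)
      · rw [isOfFinOrder_iff_pow_eq_one] at hfin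
        obtain ⟨n, hn, hfin⟩ := hfin
        refine ⟨1, fun h6 => p.isPrime.ne_top ((Ideal.eq_top_iff_one _).2 h6), n,
          fun L _ _ s hL P hP φ hφ hφp hφa => ?_⟩
        obtain ⟨h6, h7⟩ := hpt L s P φ hφ hφp
        have h8 := theta_taut A ε s P _ h6 h7
        have h9 : orderOf (theta (ε ≫ A.hom) A s _ (𝟙 _) h7 P) = orderOf P :=
          orderOf_injective _ (theta_injective _ A s _ _ h7) P
        rw [← h9, h8]
        refine orderOf_le_of_pow_eq_one hn ?_
        rw [← MonObj.comp_pow, hfin, MonObj.comp_one]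
      · have h6 := hY (bc (ε ≫ A.hom) A) (bc_abelian _ A hA) (taut A ε) hfin
        rw [dense_iff_inter_open] at h6
        push Not at h6
        obtain ⟨O, hO, hOn, hOe⟩ := h6
        obtain ⟨a, hap, ha⟩ := exists_basic p.asIdeal ⟨O, hO⟩ hOn
        refine ⟨a, hap, 0, fun L _ _ s hL P hP φ hφ hφp hφa => ?_⟩
        exfalso
        obtain ⟨h6, h7⟩ := hpt L s P φ hφ hφp
        have h8 := theta_taut A ε s P _ h6 h7
        let x : Spec (.of L) := (⊥ : PrimeSpectrum L)
        have h9 := ha L (Ideal.Quotient.lift p.asIdeal φ hφp) hφa x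
        have h10 : (Spec.map (CommRingCat.ofHom (Ideal.Quotient.lift p.asIdeal φ hφp))) x ∈
            O ∩ torsionPoints (bc (ε ≫ A.hom) A) (taut A ε) F := by
          refine ⟨h9, L, inferInstance, inferInstance, _, hL, ⟨x, rfl⟩, ?_⟩
          rw [← h8]
          exact MonoidHom.isOfFinOrder _ hP
        rw [hOe] at h10
        exact h10
    obtain ⟨a, hap, B, hB⟩ := key
    let O : TopologicalSpace.Closeds T.left := ⟨((T.left.basicOpen a : T.left.Opens) : Set T.left)ᶜ,
      (T.left.basicOpen a).isOpen.isClosed_compl⟩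
    have hlt : Z ⊓ O < Z := by
      rw [inf_lt_left]
      intro hle
      have h7 : ξ ∈ (Z : Set T.left) := by
        rw [← hξ]
        exact subset_closure rfl
      exact hle h7 ((hpa a).1 hap)
    obtain ⟨B', hB'⟩ := IH _ hlt
    refine ⟨max B B', fun L _ _ s hL P hP hs => ?_⟩
    let x : Spec (.of L) := (⊥ : PrimeSpectrum L)
    by_cases hsa : P.left x ∈ T.left.basicOpen a
    · refine le_trans ?_ (le_max_left _ _)
      obtain ⟨φ, hφ, hφa⟩ := exists_hom hV P.left ⟨x, rfl⟩ (T.left.basicOpen_le a hsa)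
      have hφp : ∀ b ∈ p.asIdeal, φ b = 0 := by
        intro b hb
        by_contra hne
        have h8 : P.left x ∈ T.left.basicOpen b := (hφa b).2 hne
        have h9 : P.left x ∈ closure ({ξ} : Set T.left) := by
          rw [hξ]
          exact hs ⟨x, rfl⟩
        rw [mem_closure_iff] at h9
        obtain ⟨z, hz1, hz2⟩ := h9 _ (T.left.basicOpen b).isOpen h8
        rw [Set.mem_singleton_iff] at hz2
        subst hz2
        exact (hpa b).2 hz1 hb
      exact hB L s hL P hP φ hφ hφp ((hφa a).1 hsa)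
    · refine le_trans ?_ (le_max_right _ _)
      refine hB' L s hL P hP ?_
      rintro - ⟨z, rfl⟩
      refine ⟨hs ⟨z, rfl⟩, ?_⟩
      have : z = x := Subsingleton.elim (α := PrimeSpectrum L) _ _
      rw [this]
      exact hsa
  · -- reducible sets
    by_cases hZe : (Z : Set T.left).Nonempty
    · have h6 : ¬ IsPreirreducible (Z : Set T.left) := fun h7 => hZ ⟨hZe, h7⟩
      simp only [isPreirreducible_iff_isClosed_union_isClosed, not_forall, not_or] at h6
      obtain ⟨z₁, z₂, hz₁, hz₂, hsub, hz₁', hz₂'⟩ := h6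
      lift z₁ to TopologicalSpace.Closeds T.left using hz₁
      lift z₂ to TopologicalSpace.Closeds T.left using hz₂
      obtain ⟨B₁, hB₁⟩ := IH (Z ⊓ z₁) (inf_lt_left.2 hz₁')
      obtain ⟨B₂, hB₂⟩ := IH (Z ⊓ z₂) (inf_lt_left.2 hz₂')
      refine ⟨max B₁ B₂, fun L _ _ s hL P hP hs => ?_⟩
      let x : Spec (.of L) := (⊥ : PrimeSpectrum L)
      have hx : ∀ z : Spec (.of L), z = x := fun z => Subsingleton.elim (α := PrimeSpectrum L) _ _
      rcases hsub (hs ⟨x, rfl⟩) with h7 | h7
      · refine le_trans (hB₁ L s hL P hP ?_) (le_max_left _ _)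
        rintro - ⟨z, rfl⟩
        rw [hx z]
        exact ⟨hs ⟨x, rfl⟩, h7⟩
      · refine le_trans (hB₂ L s hL P hP ?_) (le_max_right _ _)
        rintro - ⟨z, rfl⟩
        rw [hx z]
        exact ⟨hs ⟨x, rfl⟩, h7⟩
    · refine ⟨0, fun L _ _ s hL P hP hs => (hZe ?_).elim⟩
      let x : Spec (.of L) := (⊥ : PrimeSpectrum L)
      exact ⟨P.left x, hs ⟨x, rfl⟩⟩

end Pool.Agent.Helper53.UBT
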