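import Pool.Agent.Helper53.UBT.Bounded
import Pool.Agent.Helper53.OS.Seq
import Pool.Graph.R_pool_sql_team_seeded_2aa45f1a.Q193.LT.Per

/-!
# The non-density of torsion and one sequence of planar moduli spaces
-/

set_option autoImplicit false

open CategoryTheory MonoidalCategory CartesianMonoidalCategory MonObj Limits AlgebraicGeometry
  Pool.Agent.Y116.UV Pool.Agent.Z125.UN Pool.Agent.Q193.LT
  Pool.Agent.Helper3.GU Pool.Agent.Helper13.RM Pool.Agent.Helper10.PC Pool.Agent.Helper53.OS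

namespace Pool.Agent.Helper53.UBT

/-- The schemes over `ℚ` have characteristic zero. -/
lemma charZero_of_sch (X : Sch ℚ) (V : X.left.Opens) (hV : (V : Set X.left).Nonempty) :
    CharZero Γ(X.left, V) := by
  obtain ⟨x, hx⟩ := hV
  have hn : Nontrivial Γ(X.left, V) := by
    have : Nonempty V := ⟨⟨x, hx⟩⟩
    infer_instance
  let φ : ℚ →+* Γ(X.left, V) :=
    ((X.hom.appLE ⊤ V le_top).hom.comp (Scheme.ΓSpecIso (CommRingCat.of ℚ)).inv.hom)
  let _ : Algebra ℚ Γ(X.left, V) := φ.toAlgebra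
  exact Algebra.charZero_of_charZero ℚ _

lemma hasFine_true : HasFine (k := ℚ) (fun _ => True) := fun X hX hi =>
  ⟨X, 𝟙 X, by change IsOpenImmersion (𝟙 X.left); infer_instance,
    (inferInstance : Nonempty X.left), hX, trivial⟩

/-- A cofinal sequence of smooth integral planar moduli spaces. -/
theorem exists_cofinal : ∃ M : ℕ → Mat, (∀ i, SmoothMod ℚ ⊤ (M i).2) ∧
    ∀ X : Sch ℚ, FT True X → IsIntegral X.left → ∃ i₀, ∀ i, i₀ ≤ i → Dominates (modS ℚ (M i).2) X := by
  obtain ⟨M, hM, hdo, -⟩ := exists_seq.{0, 0} (presents_frac frac_rat) hasFine_true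
  exact ⟨M, hM, hdo⟩

theorem nonDense_of_dominates {g : ℕ} {U Y : Sch ℚ} (h : Dominates U Y) (hY : IsIntegral Y.left)
    (hU : NonDense g U.left) : NonDense g Y.left := by
  obtain ⟨hUft, -, hUi, f, hf⟩ := h
  have hff : LocallyOfFiniteType f.left := by
    have h6 : LocallyOfFiniteType (f.left ≫ Y.hom) := by
      rw [Over.w f]
      exact hUft.locallyOfFiniteType
    exact locallyOfFiniteType_of_comp f.left Y.hom
  exact NonDense.descend f.left (charZero_of_sch Y) hU

/-- The closed affine subscheme of an affine open subscheme, as a scheme over `ℚ`. -/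
lemma ft_piece (X : Sch ℚ) (hX : FT True X) {V : X.left.Opens} (hV : IsAffineOpen V)
    (p : Ideal Γ(X.left, V)) :
    FT True (Over.mk ((Spec.map (CommRingCat.ofHom (Ideal.Quotient.mk p)) ≫ hV.fromSpec) ≫ X.hom) :
      Sch ℚ) := by
  have h1 := hX.locallyOfFiniteType
  have h2 : LocallyOfFiniteType (Spec.map (CommRingCat.ofHom (Ideal.Quotient.mk p))) := by
    have : IsClosedImmersion (Spec.map (CommRingCat.ofHom (Ideal.Quotient.mk p))) :=
      IsClosedImmersion.spec_of_surjective _ Ideal.Quotient.mk_surjective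
    infer_instance
  refine ⟨?_, ?_, fun _ => ?_⟩
  · change LocallyOfFiniteType ((Spec.map (CommRingCat.ofHom (Ideal.Quotient.mk p)) ≫ hV.fromSpec) ≫
      X.hom)
    infer_instance
  · change QuasiCompact ((Spec.map (CommRingCat.ofHom (Ideal.Quotient.mk p)) ≫ hV.fromSpec) ≫
      X.hom)
    infer_instance
  · change IsSeparated ((Spec.map (CommRingCat.ofHom (Ideal.Quotient.mk p)) ≫ hV.fromSpec) ≫
      X.hom)
    infer_instance

lemma not_mem_primeIdealOf {S : Scheme.{0}} {V : S.Opens} (hV : IsAffineOpen V) (ξ : S) (hyV : ξ ∈ V)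
    (b : Γ(S, V)) : b ∉ (hV.primeIdealOf ⟨ξ, hyV⟩).asIdeal ↔ ξ ∈ S.basicOpen b := by
  have h7 : hV.fromSpec (hV.primeIdealOf ⟨ξ, hyV⟩) = ξ := hV.fromSpec_primeIdealOf ⟨ξ, hyV⟩
  have h8 : (hV.primeIdealOf ⟨ξ, hyV⟩ ∈ PrimeSpectrum.basicOpen b) ↔
      hV.fromSpec (hV.primeIdealOf ⟨ξ, hyV⟩) ∈ S.basicOpen b := by
    have h9 := hV.fromSpec_preimage_basicOpen b
    constructor
    · intro h
      have h10 : hV.primeIdealOf ⟨ξ, hyV⟩ ∈ hV.fromSpec ⁻¹ᵁ S.basicOpen b := h9 ▸ h
      exact h10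
    · intro h
      have h10 : hV.primeIdealOf ⟨ξ, hyV⟩ ∈ hV.fromSpec ⁻¹ᵁ S.basicOpen b := h
      exact h9 ▸ h10
  exact h8.trans (Iff.of_eq (congrArg (fun z => z ∈ S.basicOpen b) h7))

/-- Each integral scheme over `ℚ` contains a smooth moduli space as an open subscheme. -/
theorem exists_open_smooth (Y : Sch ℚ) (hY : FT True Y) (hYi : IsIntegral Y.left) :
    ∃ (n : ℕ) (M : Matroid (Fin 4 ⊕ Fin n)) (j : modS ℚ M ⟶ Y), SmoothMod ℚ ⊤ M ∧
      IsOpenImmersion j.left := by
  have hR := presents_frac frac_rat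
  obtain ⟨n, M, s, g1, g2, g3, g4⟩ := exists_open_mod (sep := True) hR Y hY
  have hdom := isDomain_of_open s g3 g4
  obtain ⟨w, hw, hs⟩ := generic_smooth_field (k := ℚ) (ModR ℚ M)
  have hdm : IsDomain (Localization.Away w) :=
    IsLocalization.isDomain_localization (powers_le_nonZeroDivisors_of_noZeroDivisors hw)
  have hft : Algebra.FiniteType ℚ (Localization.Away w) := ft_loc _ _
  let W : Sch ℚ := aff ℚ (Localization.Away w)
  have hi : IsIntegral W.left := by
    change IsIntegral (Spec (CommRingCat.of (Localization.Away w)))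
    rw [affine_isIntegral_iff]
    exact hdm
  have hW : FT True W := ft_aff True
  let o : W ⟶ modS ℚ M := affMap (IsScalarTower.toAlgHom ℚ (ModR ℚ M) (Localization.Away w))
  have ho : IsOpenImmersion o.left :=
    Scheme.isOpenImmersion_SpecMap_localizationAway (R := .of (ModR ℚ M)) w
  obtain ⟨n', M', s', g1', g2', g3', g4'⟩ := exists_open_mod (sep := True) hR W hW
  have hdom' := isDomain_of_open s' g3' g4'
  have hsm : Smooth (modS ℚ M').hom := smooth_of_open s' g3' (smooth_aff_iff.2 hs)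
  refine ⟨n', M', s' ≫ o ≫ s, ⟨g1', g2', hdom', smooth_aff_iff.1 hsm, le_top⟩, ?_⟩
  change IsOpenImmersion (s'.left ≫ o.left ≫ s.left)
  infer_instance

/-- The descent along open immersions, for arbitrary classes of fields. -/
theorem NonDenseAt.of_open {g : ℕ} {F : Fields} {U S : Scheme.{0}} (f : U ⟶ S) [IsOpenImmersion f]
    [Nonempty U] [IsIntegral S] (h : NonDenseAt g F U) : NonDenseAt g F S := by
  intro A _ hA σ hσ hd
  have := hA.proper
  have hop : IsOpen (Set.range f) := (Scheme.Hom.isOpenEmbedding f).isOpen_range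
  have hdom : IsDominant f := ⟨hop.dense (Set.range_nonempty _)⟩
  refine h (bc f A) (bc_abelian f A hA) (pull f A σ) (infinite_pull f A σ hσ) ?_
  rw [dense_iff_inter_open]
  intro O hO hOn
  have hO' : IsOpen (f '' O) := (Scheme.Hom.isOpenEmbedding f).isOpenMap O hO
  obtain ⟨y, ⟨x, hxO, hxy⟩, L, _, _, s, hL, hys, hs⟩ := hd.inter_open_nonempty _ hO' (hOn.image f)
  obtain ⟨z, hz⟩ := hys
  have hsub : Set.range s ⊆ Set.range f := by
    rintro - ⟨z', rfl⟩
    have hzz : z' = z := Subsingleton.elim (α := PrimeSpectrum L) _ _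
    rw [hzz, hz, ← hxy]
    exact ⟨x, rfl⟩
  let u : Spec (.of L) ⟶ U := IsOpenImmersion.lift f s hsub
  have hu : u ≫ f = s := IsOpenImmersion.lift_fac _ _ _
  refine ⟨x, hxO, L, inferInstance, inferInstance, u, hL, ⟨z, ?_⟩, ?_⟩
  · apply (Scheme.Hom.isOpenEmbedding f).injective
    rw [← Scheme.Hom.comp_apply, hu, hz, hxy]
  · exact torsion_pull f A s u (𝟙 _) (by rw [hu, Category.id_comp]) σ hs

end Pool.Agent.Helper53.UBT
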