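import Mathlib

/-!
# Abelian schemes, sections and base change
-/

set_option autoImplicit false

open CategoryTheory MonoidalCategory CartesianMonoidalCategory MonObj Limits AlgebraicGeometry

namespace Pool.Agent.Helper53.UBT

/-- `A` is an abelian scheme over `S` of relative dimension `g`: a proper and smooth group scheme with
geometrically integral fibres of dimension `g`. -/
structure IsAbelianScheme (g : ℕ) {S : Scheme.{0}} (A : Over S) [GrpObj A] : Prop where
  proper : IsProper A.hom
  smooth : SmoothOfRelativeDimension g A.hom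
  integral : GeometricallyIntegral A.hom

/-- A section of `A` over `S`. -/
abbrev Sec {S : Scheme.{0}} (A : Over S) : Type := Over.mk (𝟙 S) ⟶ A

/-- The point `s` of `S` with coordinates in the field `L`, as a morphism over `S`. -/
noncomputable def pt {S : Scheme.{0}} {L : Type} [Field L] (s : Spec (.of L) ⟶ S) : Over.mk s ⟶ Over.mk (𝟙 S) :=
  Over.homMk s

/-- A class of number fields. -/
abbrev Fields : Type 1 := (L : Type) → [Field L] → [NumberField L] → Prop

/-- The class of the number fields of degree at most `d`. -/
def deg (d : ℕ) : Fields := fun L _ _ => Module.finrank ℚ L ≤ d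

/-- The set of the points `x` of `S` at which the section `σ` is torsion, with coordinates in the fields of the
class `F`: for some `L` in `F` there is a point `s` in `S(L)` above `x` such that the value of `σ` at `s`,
an `L`-rational point of the fibre, has finite order. -/
def torsionPoints {S : Scheme.{0}} (A : Over S) [GrpObj A] (σ : Sec A) (F : Fields) : Set S :=
  {x | ∃ (L : Type) (_ : Field L) (_ : NumberField L) (s : Spec (.of L) ⟶ S),
    F L ∧ x ∈ Set.range s ∧ IsOfFinOrder (pt s ≫ σ)}

/-- The statement on the scheme `S`: for every abelian scheme over `S` of relative dimension `g` and every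
section of infinite order, the set of the points with coordinates in the fields of the class `F` at which
the section is torsion is not dense. -/
def NonDenseAt (g : ℕ) (F : Fields) (S : Scheme.{0}) : Prop :=
  ∀ (A : Over S) [GrpObj A], IsAbelianScheme g A → ∀ σ : Sec A, ¬ IsOfFinOrder σ →
    ¬ Dense (torsionPoints A σ F)

/-- The statement `NonDenseAt` for the fields of bounded degree. -/
def NonDense (g : ℕ) (S : Scheme.{0}) : Prop :=
  ∀ d : ℕ, NonDenseAt g (deg d) S

section pull

variable {U S : Scheme.{0}} (f : U ⟶ S) (A : Over S)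

/-- The base change of `A`. -/
noncomputable abbrev bc : Over U := (Over.pullback f).obj A

noncomputable instance [GrpObj A] : GrpObj (bc f A) := Functor.grpObjObj

lemma bc_abelian {g : ℕ} [GrpObj A] (h : IsAbelianScheme g A) : IsAbelianScheme g (bc f A) where
  proper := by
    have := h.proper
    change IsProper (pullback.snd A.hom f)
    infer_instance
  smooth := by
    have := h.smooth
    change SmoothOfRelativeDimension g (pullback.snd A.hom f)
    have h1 := smoothOfRelativeDimension_isStableUnderBaseChange g
    exact h1.of_isPullback (IsPullback.of_hasPullback A.hom f) h.smooth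
  integral := by
    have := h.integral
    change GeometricallyIntegral (pullback.snd A.hom f)
    infer_instance

/-- The unit section. -/
noncomputable def unitSec : Over.mk (𝟙 U) ⟶ (Over.pullback f).obj (Over.mk (𝟙 S)) :=
  Over.homMk (pullback.lift f (𝟙 U) (by simp)) (pullback.lift_snd _ _ _)

/-- The base change of a section. -/
noncomputable def pull (σ : Sec A) : Sec (bc f A) := unitSec f ≫ (Over.pullback f).map σ

lemma pull_mul [GrpObj A] (σ τ : Sec A) : pull f A (σ * τ) = pull f A σ * pull f A τ := by
  unfold pull
  rw [Functor.map_mul, comp_mul]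

lemma pull_one [GrpObj A] : pull f A 1 = 1 := by
  unfold pull
  rw [Functor.map_one, MonObj.comp_one]

lemma pull_pow [GrpObj A] (σ : Sec A) (n : ℕ) : pull f A (σ ^ n) = pull f A σ ^ n := by
  induction n with
  | zero => rw [pow_zero, pow_zero, pull_one]
  | succ n ih => rw [pow_succ, pow_succ, pull_mul, ih]

lemma pull_fst (σ : Sec A) : (pull f A σ).left ≫ pullback.fst A.hom f = f ≫ σ.left := by
  have h1 : (pull f A σ).left = pullback.lift f (𝟙 U) (by simp) ≫
      ((Over.pullback f).map σ).left := rfl
  have h2 : ((Over.pullback f).map σ).left ≫ pullback.fst A.hom f =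
      pullback.fst (𝟙 S) f ≫ σ.left := pullback.lift_fst _ _ _
  rw [h1, Category.assoc, h2, ← Category.assoc]
  congr 1
  exact pullback.lift_fst _ _ _

lemma pull_snd (σ : Sec A) : (pull f A σ).left ≫ pullback.snd A.hom f = 𝟙 U := by
  have := Over.w (pull f A σ)
  exact this

lemma hom_pull_eq {L' : Type} [Field L'] (u : Spec (.of L') ⟶ U) (σ τ : Sec A)
    (h : u ≫ f ≫ σ.left = u ≫ f ≫ τ.left) : pt u ≫ pull f A σ = pt u ≫ pull f A τ := by
  apply Over.OverMorphism.ext
  change u ≫ (pull f A σ).left = u ≫ (pull f A τ).left
  refine pullback.hom_ext ?_ ?_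
  · rw [Category.assoc, Category.assoc, pull_fst, pull_fst, h]
  · rw [Category.assoc, Category.assoc, pull_snd, pull_snd]

/-- A section which is torsion at `s` is torsion at the points above `s`. -/
lemma torsion_pull [GrpObj A] {L L' : Type} [Field L] [Field L'] (s : Spec (.of L) ⟶ S)
    (u : Spec (.of L') ⟶ U) (t : Spec (.of L') ⟶ Spec (.of L)) (hu : u ≫ f = t ≫ s) (σ : Sec A)
    (h : IsOfFinOrder (pt s ≫ σ)) : IsOfFinOrder (pt u ≫ pull f A σ) := by
  rw [isOfFinOrder_iff_pow_eq_one] at h ⊢
  obtain ⟨n, hn, h⟩ := h
  refine ⟨n, hn, ?_⟩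
  rw [← MonObj.comp_pow, ← MonObj.comp_one (pt s)] at h
  rw [← MonObj.comp_pow, ← pull_pow, ← MonObj.comp_one (pt u), ← pull_one]
  apply hom_pull_eq
  have h1 : s ≫ (σ ^ n).left = s ≫ (1 : Sec A).left := congrArg (fun g => g.left) h
  rw [← Category.assoc, ← Category.assoc, hu, Category.assoc, Category.assoc, h1]

/-- The base change of a section of infinite order to a dominating scheme. -/
lemma infinite_pull [GrpObj A] [IsReduced S] [IsDominant f] [IsSeparated A.hom] (σ : Sec A)
    (h : ¬ IsOfFinOrder σ) : ¬ IsOfFinOrder (pull f A σ) := by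
  intro h1
  apply h
  rw [isOfFinOrder_iff_pow_eq_one] at h1 ⊢
  obtain ⟨n, hn, h1⟩ := h1
  refine ⟨n, hn, ?_⟩
  rw [← pull_pow, ← pull_one] at h1
  have h2 : f ≫ (σ ^ n).left = f ≫ (1 : Sec A).left := by
    rw [← pull_fst, ← pull_fst, h1]
  apply Over.OverMorphism.ext
  refine ext_of_isDominant_of_isSeparated (X := S) A.hom ?_ f h2
  exact (Over.w (σ ^ n)).trans (Over.w (1 : Sec A)).symm

end pull

end Pool.Agent.Helper53.UBT
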